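import Mathlib
import Pool.Agent.Q127.KI.Stm

/-!
# Entropy and Lyapunov exponents of diffeomorphisms of the two-torus: definitions

The two-torus is `𝕋² = ℝ²/(2πℤ)²`. A diffeomorphism is described through its lift to the universal
cover `ℝ²`, which is also the tangent space at every point. We use the maximum norm on `ℝ²`; the
Lyapunov exponents do not depend on the choice of the norm (or of a Riemannian metric).
-/

set_option autoImplicit false

open Set Filter Topology MeasureTheory Function
open scoped ContDiff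

namespace Run7.h501.FE

/-- The two-torus `ℝ²/(2πℤ)²`. -/
abbrev Torus : Type := AddCircle (2 * Real.pi) × AddCircle (2 * Real.pi)

/-- The universal cover of the two-torus, which is also its tangent space at every point. -/
abbrev Plane : Type := ℝ × ℝ

/-- The covering map `ℝ² → ℝ²/(2πℤ)²`. -/
noncomputable def proj (z : Plane) : Torus :=
  ((z.1 : AddCircle (2 * Real.pi)), (z.2 : AddCircle (2 * Real.pi)))

/-- `f` is a real-analytic diffeomorphism of the torus: `F` and `G` are real-analytic lifts of `f`
and `f⁻¹`. The derivative of `fⁿ` at `proj z` is that of `Fⁿ` at `z`, the derivative of `f⁻ⁿ` is that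
of `Gⁿ`. -/
structure IsAnalyticDiffeo (f : Torus ≃ₜ Torus) (F G : Plane → Plane) : Prop where
  lift : ∀ z, f (proj z) = proj (F z)
  lift_symm : ∀ z, f.symm (proj z) = proj (G z)
  analytic : ContDiff ℝ ω F
  analytic_symm : ContDiff ℝ ω G

/-- The Oseledets splitting at the point `proj z` (`F`, `G` are lifts of `f`, `f⁻¹`): the tangent space
is the direct sum of the nonzero subspaces `V i`, and
`lim_{n → ±∞} (1/n) log ‖D fⁿ u‖ = χ i` for all nonzero `u ∈ V i`, with distinct numbers `χ i`. -/
structure IsOseledets (F G : Plane → Plane) (z : Plane) {m : ℕ} (V : Fin m → Submodule ℝ Plane)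
    (χ : Fin m → ℝ) : Prop where
  internal : DirectSum.IsInternal V
  ne_bot : ∀ i, V i ≠ ⊥
  distinct : Injective χ
  forward : ∀ i, ∀ u ∈ V i, u ≠ 0 →
    Tendsto (fun n : ℕ => (1 / (n : ℝ)) * Real.log ‖fderiv ℝ (F^[n]) z u‖) atTop (𝓝 (χ i))
  backward : ∀ i, ∀ u ∈ V i, u ≠ 0 →
    Tendsto (fun n : ℕ => (1 / (-n : ℝ)) * Real.log ‖fderiv ℝ (G^[n]) z u‖) atTop (𝓝 (χ i))

/-- `c = χ₊(proj z)`, the sum of the positive Lyapunov exponents, counted with multiplicity. -/
def IsChiPlus (F G : Plane → Plane) (z : Plane) (c : ℝ) : Prop :=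
  ∃ (m : ℕ) (V : Fin m → Submodule ℝ Plane) (χ : Fin m → ℝ), IsOseledets F G z V χ ∧
    c = ∑ i, max (χ i) 0 * (Module.finrank ℝ (V i) : ℝ)

/-- `ρ` is an `f`-invariant Borel probability measure. -/
structure IsInvariant (f : Torus ≃ₜ Torus) (ρ : Measure Torus) : Prop where
  prob : IsProbabilityMeasure ρ
  inv : MeasurePreserving f ρ ρ

end Run7.h501.FE
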