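import Mathlib

/-!
# Trigonometric inequalities
-/

set_option autoImplicit false

open Real

namespace Run7.h501.FE

theorem sin_abs_le (h : ℝ) : |sin h| ≤ |h| := abs_sin_le_abs

theorem two_div_pi_gt : (1 : ℝ) / 2 < 2 / π := by
  rw [div_lt_div_iff₀ (by norm_num) pi_pos]
  have := pi_lt_four
  linarith

/-- `|sin h - h| ≤ |h|³/4` for `|h| ≤ 1` -/
theorem sin_sub_abs_le {h : ℝ} (hh : |h| ≤ 1) : |sin h - h| ≤ |h| ^ 3 / 4 := by
  rcases lt_trichotomy h 0 with h0 | h0 | h0
  · have h1 : 0 < -h := by linarith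
    have h2 : |h| = -h := abs_of_neg h0
    rw [h2] at hh ⊢
    have h3 := sin_gt_sub_cube h1
    have h4 := sin_lt h1
    rw [sin_neg] at h3 h4
    rw [abs_le]
    constructor <;> nlinarith
  · simp [h0]
  · have h2 : |h| = h := abs_of_pos h0
    rw [h2] at hh ⊢
    have h3 := sin_gt_sub_cube h0
    have h4 := sin_lt h0
    rw [abs_le]
    constructor <;> nlinarith

theorem cos_upper {h : ℝ} (hh : |h| ≤ 1) : cos h ≤ 1 - h ^ 2 / 8 := by
  have h1 := cos_le_one_sub_mul_cos_sq (x := h) (hh.trans (by linarith [two_le_pi]))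
  have h2 : (1 : ℝ) / 8 ≤ 2 / π ^ 2 := by
    rw [div_le_div_iff₀ (by norm_num) (by positivity)]
    have := pi_lt_four
    nlinarith [pi_pos]
  nlinarith [sq_nonneg h]

/-- the height function on the circle -/
theorem key1 (a t : ℝ) (ht : |t| ≤ 3 / 8) :
    |sin (a + t * sin a)| ≤ |sin a| * (1 + t * cos a) := by
  set h := t * sin a with hh
  have hs := abs_sin_le_one a
  have hc := abs_cos_le_one a
  have hh1 : |h| ≤ 3 / 8 := by
    rw [hh, abs_mul]
    calc |t| * |sin a| ≤ 3 / 8 * 1 := mul_le_mul ht hs (abs_nonneg _) (by norm_num)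
      _ = 3 / 8 := by norm_num
  have hh2 : |h| ≤ 1 := hh1.trans (by norm_num)
  have hc1 := cos_upper hh2
  have hc2 := one_sub_sq_div_two_le_cos (x := h)
  have hs1 := sin_sub_abs_le hh2
  have htc : |t * cos a| ≤ 3 / 8 := by
    rw [abs_mul]
    calc |t| * |cos a| ≤ 3 / 8 * 1 := mul_le_mul ht hc (abs_nonneg _) (by norm_num)
      _ = 3 / 8 := by norm_num
  have htc' := abs_le.1 htc
  have hsq : h ^ 2 ≤ 9 / 64 := by
    rw [← sq_abs]; nlinarith [abs_nonneg h]
  have hpos : 0 ≤ cos h + t * cos a := by linarith [htc'.1]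
  have e : sin (a + h) = sin a * (cos h + t * cos a) + cos a * (sin h - h) := by
    rw [sin_add, hh]; ring
  rw [e]
  refine (abs_add_le _ _).trans ?_
  rw [abs_mul, abs_mul, abs_of_nonneg hpos]
  have h5 : |cos a| * |sin h - h| ≤ |sin a| * (h ^ 2 / 8) := by
    calc |cos a| * |sin h - h| ≤ 1 * (|h| ^ 3 / 4) :=
          mul_le_mul hc hs1 (abs_nonneg _) (by norm_num)
      _ = |t| * |sin a| * (h ^ 2 / 4) := by
          rw [one_mul, ← sq_abs h]
          have : |h| = |t| * |sin a| := by rw [hh, abs_mul]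
          rw [this]; ring
      _ ≤ 3 / 8 * |sin a| * (h ^ 2 / 4) := by
          have := mul_le_mul_of_nonneg_right ht (abs_nonneg (sin a))
          exact mul_le_mul_of_nonneg_right this (by positivity)
      _ ≤ |sin a| * (h ^ 2 / 8) := by
          have : 0 ≤ |sin a| * h ^ 2 := by positivity
          nlinarith
  have h6 : |sin a| * (cos h + t * cos a) ≤ |sin a| * (1 - h ^ 2 / 8 + t * cos a) :=
    mul_le_mul_of_nonneg_left (by linarith) (abs_nonneg _)
  nlinarith

theorem key3 {a t : ℝ} (ht : |t| ≤ 3 / 8) (ha : sin a ≠ 0) : sin (a + t * sin a) ≠ 0 := by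
  set h := t * sin a with hh
  have hs := abs_sin_le_one a
  have hc := abs_cos_le_one a
  have hh1 : |h| ≤ 3 / 8 := by
    rw [hh, abs_mul]
    calc |t| * |sin a| ≤ 3 / 8 * 1 := mul_le_mul ht hs (abs_nonneg _) (by norm_num)
      _ = 3 / 8 := by norm_num
  have hsq : h ^ 2 ≤ 9 / 64 := by
    rw [← sq_abs]; nlinarith [abs_nonneg h]
  have hc2 := one_sub_sq_div_two_le_cos (x := h)
  intro h0
  rw [sin_add] at h0
  have h1 : sin a * cos h = -(cos a * sin h) := by linarith
  have h2 : |sin a| * |cos h| ≤ |sin a| * (3 / 8) := by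
    rw [← abs_mul, h1, abs_neg, abs_mul]
    calc |cos a| * |sin h| ≤ 1 * |h| := mul_le_mul hc (sin_abs_le h) (abs_nonneg _) (by norm_num)
      _ = |t| * |sin a| := by rw [one_mul, hh, abs_mul]
      _ ≤ 3 / 8 * |sin a| := mul_le_mul_of_nonneg_right ht (abs_nonneg _)
      _ = |sin a| * (3 / 8) := by ring
  have h3 : |cos h| ≤ 3 / 8 := le_of_mul_le_mul_left h2 (abs_pos.2 ha)
  have h4 := (abs_le.1 h3).2
  linarith

theorem key2 (b s : ℝ) (hs0 : 0 ≤ s) (hs : s ≤ 3 / 8) :
    cos b + 5 / 16 * s * sin b ^ 2 ≤ cos (b - s * sin b) := by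
  set h := s * sin b with hh
  have hsb := abs_sin_le_one b
  have hc := abs_cos_le_one b
  have hab : |h| = s * |sin b| := by rw [hh, abs_mul, abs_of_nonneg hs0]
  have hh1 : |h| ≤ 3 / 8 := by
    rw [hab]
    calc s * |sin b| ≤ 3 / 8 * 1 := mul_le_mul hs hsb (abs_nonneg _) (by norm_num)
      _ = 3 / 8 := by norm_num
  -- `sin b * sin h = |sin b| * sin |h| ≥ |sin b| * |h| / 2`
  have h1 : 1 / 2 * |h| ≤ sin |h| := by
    have h2 := mul_le_sin (abs_nonneg h) (hh1.trans (by linarith [two_le_pi]))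
    have := mul_le_mul_of_nonneg_right two_div_pi_gt.le (abs_nonneg h)
    linarith
  have h3 : sin b * sin h = |sin b| * sin |h| := by
    rcases le_total 0 (sin b) with h0 | h0
    · have : 0 ≤ h := mul_nonneg hs0 h0
      rw [abs_of_nonneg h0, abs_of_nonneg this]
    · have : h ≤ 0 := mul_nonpos_of_nonneg_of_nonpos hs0 h0
      rw [abs_of_nonpos h0, abs_of_nonpos this, sin_neg]; ring
  have h4 : 1 / 2 * (s * sin b ^ 2) ≤ sin b * sin h := by
    rw [h3]
    calc 1 / 2 * (s * sin b ^ 2) = |sin b| * (1 / 2 * |h|) := by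
          rw [hab, ← sq_abs (sin b)]; ring
      _ ≤ |sin b| * sin |h| := mul_le_mul_of_nonneg_left h1 (abs_nonneg _)
  have h5 : cos b * (1 - cos h) ≤ h ^ 2 / 2 := by
    have h6 := one_sub_sq_div_two_le_cos (x := h)
    have h7 : 0 ≤ 1 - cos h := by linarith [cos_le_one h]
    have h8 : cos b * (1 - cos h) ≤ 1 * (1 - cos h) :=
      mul_le_mul_of_nonneg_right (cos_le_one b) h7
    linarith
  have h9 : h ^ 2 / 2 ≤ 3 / 16 * (s * sin b ^ 2) := by
    rw [hh]
    have : 0 ≤ s * sin b ^ 2 := by positivity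
    nlinarith
  rw [cos_sub]
  nlinarith

theorem key2' (b s : ℝ) (hs0 : 0 ≤ s) (hs : s ≤ 3 / 8) :
    cos (b + s * sin b) ≤ cos b - 5 / 16 * s * sin b ^ 2 := by
  have h := key2 (b + π) s hs0 hs
  rw [sin_add_pi, cos_add_pi] at h
  have e : b + π - s * -sin b = (b + s * sin b) + π := by ring
  rw [e, cos_add_pi] at h
  nlinarith

end Run7.h501.FE
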