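import Pool.Agent.Run7.h501.FE.Map
import Pool.Agent.Run7.h501.FE.Ineq
import Pool.Agent.Q154.KI_MEA
import Pool.Agent.Q256.KI.KSZ

/-!
# The diffeomorphism of the torus and its invariant measures
-/

set_option autoImplicit false

open Set Filter Topology MeasureTheory Function Real
open scoped ContDiff

namespace Run7.h501.FE

instance fact_two_pi : Fact (0 < 2 * π) := ⟨by positivity⟩

/-- the sine on the circle -/
noncomputable def sn (x : AddCircle (2 * π)) : ℝ := Real.Angle.sin x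
/-- the cosine on the circle -/
noncomputable def cn (x : AddCircle (2 * π)) : ℝ := Real.Angle.cos x

theorem sn_coe (t : ℝ) : sn (t : AddCircle (2 * π)) = sin t := Real.Angle.sin_coe t
theorem cn_coe (t : ℝ) : cn (t : AddCircle (2 * π)) = cos t := Real.Angle.cos_coe t
theorem sn_cont : Continuous sn := Real.Angle.continuous_sin
theorem cn_cont : Continuous cn := Real.Angle.continuous_cos

theorem proj_surj (x : Torus) : ∃ z, proj z = x := by
  obtain ⟨a, b⟩ := x
  obtain ⟨s, rfl⟩ := QuotientAddGroup.mk_surjective a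
  obtain ⟨t, rfl⟩ := QuotientAddGroup.mk_surjective b
  exact ⟨(s, t), rfl⟩

theorem coe_eq_iff {s t : ℝ} : (s : AddCircle (2 * π)) = t ↔ ∃ k : ℤ, t = s + k * (2 * π) := by
  constructor
  · intro h
    have h1 : ((t - s : ℝ) : AddCircle (2 * π)) = 0 := by
      rw [AddCircle.coe_sub, h, sub_self]
    rw [AddCircle.coe_eq_zero_iff] at h1
    obtain ⟨k, hk⟩ := h1
    exact ⟨k, by rw [zsmul_eq_mul] at hk; linarith⟩
  · rintro ⟨k, rfl⟩
    have h1 : ((s + k * (2 * π) - s : ℝ) : AddCircle (2 * π)) = 0 := by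
      rw [AddCircle.coe_eq_zero_iff]
      exact ⟨k, by rw [zsmul_eq_mul]; ring⟩
    rw [AddCircle.coe_sub, sub_eq_zero] at h1
    exact h1.symm

/-- The map of the torus. -/
noncomputable def ft (x : Torus) : Torus :=
  (x.1 + ((1 / 4 * (sn x.1 * (cn x.2 - cn x.1 / 2)) : ℝ) : AddCircle (2 * π)),
    x.2 + ((-(1 / 4 * (sn x.2 * (cn x.1 + cn x.2 / 2))) : ℝ) : AddCircle (2 * π)))

theorem ft_proj (z : Plane) : ft (proj z) = proj (FF z) := by
  unfold ft proj FF g1 g2
  simp only [sn_coe, cn_coe, AddCircle.coe_add]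

theorem ft_cont : Continuous ft := by
  have hc : Continuous fun t : ℝ => (t : AddCircle (2 * π)) := AddCircle.continuous_mk' _
  have h1 := sn_cont
  have h2 := cn_cont
  unfold ft
  refine (continuous_fst.add (hc.comp ?_)).prodMk (continuous_snd.add (hc.comp ?_))
  · exact continuous_const.mul ((h1.comp continuous_fst).mul
      ((h2.comp continuous_snd).sub ((h2.comp continuous_fst).div_const 2)))
  · exact (continuous_const.mul ((h1.comp continuous_snd).mul
      ((h2.comp continuous_fst).add ((h2.comp continuous_snd).div_const 2)))).neg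

theorem FF_add (z : Plane) (k l : ℤ) :
    FF (z + (k * (2 * π), l * (2 * π))) = FF z + (k * (2 * π), l * (2 * π)) := by
  have e1 : sin (z.1 + k * (2 * π)) = sin z.1 := sin_add_int_mul_two_pi _ _
  have e2 : cos (z.1 + k * (2 * π)) = cos z.1 := cos_add_int_mul_two_pi _ _
  have e3 : sin (z.2 + l * (2 * π)) = sin z.2 := sin_add_int_mul_two_pi _ _
  have e4 : cos (z.2 + l * (2 * π)) = cos z.2 := cos_add_int_mul_two_pi _ _
  unfold FF g1 g2
  simp only [Prod.fst_add, Prod.snd_add, e1, e2, e3, e4, Prod.mk_add_mk]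
  ext <;> simp <;> ring

theorem ft_inj : Injective ft := by
  intro x y hxy
  obtain ⟨z, rfl⟩ := proj_surj x
  obtain ⟨w, rfl⟩ := proj_surj y
  rw [ft_proj, ft_proj] at hxy
  obtain ⟨h1, h2⟩ := Prod.ext_iff.1 hxy
  obtain ⟨k, hk⟩ := coe_eq_iff.1 h1
  obtain ⟨l, hl⟩ := coe_eq_iff.1 h2
  have h3 : FF w = FF (z + (k * (2 * π), l * (2 * π))) := by
    rw [FF_add]
    exact Prod.ext hk hl
  have h4 : w = z + (k * (2 * π), l * (2 * π)) := by
    have := congrArg GG h3
    rwa [GG_FF, GG_FF] at this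
  refine Prod.ext (coe_eq_iff.2 ⟨k, ?_⟩) (coe_eq_iff.2 ⟨l, ?_⟩)
  · rw [h4]; rfl
  · rw [h4]; rfl

theorem ft_surj : Surjective ft := by
  intro y
  obtain ⟨w, rfl⟩ := proj_surj y
  exact ⟨proj (GG w), by rw [ft_proj, FF_GG]⟩

/-- The diffeomorphism. -/
noncomputable def ff : Torus ≃ₜ Torus :=
  Continuous.homeoOfEquivCompactToT2 (f := Equiv.ofBijective ft ⟨ft_inj, ft_surj⟩) ft_cont

theorem ff_apply (x : Torus) : ff x = ft x := rfl

theorem ff_lift (z : Plane) : ff (proj z) = proj (FF z) := ft_proj z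

theorem ff_lift_symm (z : Plane) : ff.symm (proj z) = proj (GG z) := by
  rw [Homeomorph.symm_apply_eq, ff_lift, FF_GG]

theorem ff_diffeo : IsAnalyticDiffeo ff FF GG where
  lift := ff_lift
  lift_symm := ff_lift_symm
  analytic := FF_contDiff
  analytic_symm := GG_contDiff

/-! ### The first monotone quantity -/

/-- the parameters of the displacement -/
theorem t_bound (a b : ℝ) : |1 / 4 * (cos b - cos a / 2)| ≤ 3 / 8 ∧
    |-(1 / 4 * (cos a + cos b / 2))| ≤ 3 / 8 := by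
  have h1 := abs_le.1 (abs_cos_le_one a)
  have h2 := abs_le.1 (abs_cos_le_one b)
  rw [abs_le, abs_le]
  refine ⟨⟨?_, ?_⟩, ⟨?_, ?_⟩⟩ <;> linarith [h1.1, h1.2, h2.1, h2.2]

theorem FF_fst (z : Plane) : (FF z).1 = z.1 + 1 / 4 * (cos z.2 - cos z.1 / 2) * sin z.1 := by
  unfold FF g1; simp only; ring
theorem FF_snd (z : Plane) : (FF z).2 = z.2 + -(1 / 4 * (cos z.1 + cos z.2 / 2)) * sin z.2 := by
  unfold FF g2; simp only; ring

/-- the first monotone quantity, on the plane -/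
theorem V_le (z : Plane) :
    |sin (FF z).1| * |sin (FF z).2| ≤
      |sin z.1| * |sin z.2| * (1 - 1 / 16 * (cos z.1 ^ 2 + cos z.2 ^ 2)) := by
  obtain ⟨ht, ht'⟩ := t_bound z.1 z.2
  have h1 := key1 z.1 _ ht
  have h2 := key1 z.2 _ ht'
  rw [← FF_fst] at h1
  rw [← FF_snd] at h2
  set p := 1 / 4 * (cos z.2 - cos z.1 / 2) * cos z.1 with hp
  set q := -(1 / 4 * (cos z.1 + cos z.2 / 2)) * cos z.2 with hq
  have hpq : p + q = -(1 / 8) * (cos z.1 ^ 2 + cos z.2 ^ 2) := by rw [hp, hq]; ring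
  have hpb : |p| ≤ 3 / 8 := by
    rw [hp, abs_mul]
    calc _ ≤ 3 / 8 * 1 := mul_le_mul ht (abs_cos_le_one _) (abs_nonneg _) (by norm_num)
      _ = 3 / 8 := by norm_num
  have hqb : |q| ≤ 3 / 8 := by
    rw [hq, abs_mul]
    calc _ ≤ 3 / 8 * 1 := mul_le_mul ht' (abs_cos_le_one _) (abs_nonneg _) (by norm_num)
      _ = 3 / 8 := by norm_num
  have hp1 := abs_le.1 hpb
  have hq1 := abs_le.1 hqb
  calc |sin (FF z).1| * |sin (FF z).2|
      ≤ (|sin z.1| * (1 + p)) * (|sin z.2| * (1 + q)) :=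
        mul_le_mul h1 h2 (abs_nonneg _) (mul_nonneg (abs_nonneg _) (by linarith [hp1.1]))
    _ = |sin z.1| * |sin z.2| * ((1 + p) * (1 + q)) := by ring
    _ ≤ |sin z.1| * |sin z.2| * (1 - 1 / 16 * (cos z.1 ^ 2 + cos z.2 ^ 2)) := by
        refine mul_le_mul_of_nonneg_left ?_ (by positivity)
        have h3 : cos z.1 ^ 2 + cos z.2 ^ 2 = -8 * (p + q) := by rw [hpq]; ring
        rw [h3]
        have h4 : 0 ≤ 1 + (p + q) / 2 := by linarith [hp1.1, hq1.1]
        have h5 : (1 + p) * (1 + q) ≤ (1 + (p + q) / 2) ^ 2 := by nlinarith [sq_nonneg (p - q)]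
        have h6 : p + q ≤ 0 := by rw [hpq]; nlinarith [sq_nonneg (cos z.1), sq_nonneg (cos z.2)]
        nlinarith

/-- the first monotone quantity -/
noncomputable def W1 (x : Torus) : ℝ := -(|sn x.1| * |sn x.2|)

theorem W1_cont : Continuous W1 :=
  ((continuous_abs.comp (sn_cont.comp continuous_fst)).mul
    (continuous_abs.comp (sn_cont.comp continuous_snd))).neg

theorem W1_proj (z : Plane) : W1 (proj z) = -(|sin z.1| * |sin z.2|) := by
  unfold W1 proj; simp only [sn_coe]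

theorem W1_mono (x : Torus) : W1 x ≤ W1 (ff x) := by
  obtain ⟨z, rfl⟩ := proj_surj x
  rw [ff_lift, W1_proj, W1_proj]
  have h := V_le z
  have h2 : |sin z.1| * |sin z.2| * (1 - 1 / 16 * (cos z.1 ^ 2 + cos z.2 ^ 2))
      ≤ |sin z.1| * |sin z.2| * 1 := by
    refine mul_le_mul_of_nonneg_left ?_ (by positivity)
    nlinarith [sq_nonneg (cos z.1), sq_nonneg (cos z.2)]
  linarith

theorem W1_bdd (x : Torus) : |W1 x| ≤ 1 := by
  obtain ⟨z, rfl⟩ := proj_surj x
  rw [W1_proj, abs_neg, abs_mul, abs_abs, abs_abs]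
  calc |sin z.1| * |sin z.2| ≤ 1 * 1 :=
        mul_le_mul (abs_sin_le_one _) (abs_sin_le_one _) (abs_nonneg _) (by norm_num)
    _ = 1 := by norm_num

theorem W1_eq {z : Plane} (h : W1 (ff (proj z)) = W1 (proj z)) :
    sin z.1 = 0 ∨ sin z.2 = 0 ∨ (cos z.1 = 0 ∧ cos z.2 = 0) := by
  rw [ff_lift, W1_proj, W1_proj] at h
  by_cases h1 : sin z.1 = 0
  · exact Or.inl h1
  by_cases h2 : sin z.2 = 0
  · exact Or.inr (Or.inl h2)
  refine Or.inr (Or.inr ?_)
  have h3 := V_le z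
  have h4 : 0 < |sin z.1| * |sin z.2| := mul_pos (abs_pos.2 h1) (abs_pos.2 h2)
  have h5 : |sin z.1| * |sin z.2| * 1 ≤
      |sin z.1| * |sin z.2| * (1 - 1 / 16 * (cos z.1 ^ 2 + cos z.2 ^ 2)) := by linarith
  have h6 := le_of_mul_le_mul_left h5 h4
  have h7 : cos z.1 ^ 2 + cos z.2 ^ 2 ≤ 0 := by linarith
  constructor
  · nlinarith [sq_nonneg (cos z.1), sq_nonneg (cos z.2)]
  · nlinarith [sq_nonneg (cos z.1), sq_nonneg (cos z.2)]

/-! ### The second monotone quantity -/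

open Classical in
/-- the second monotone quantity -/
noncomputable def W2 (x : Torus) : ℝ :=
  if sn x.1 = 0 then cn x.1 * cn x.2 else if sn x.2 = 0 then -(cn x.1 * cn x.2) else 0

theorem W2_meas : Measurable W2 := by
  unfold W2
  have h1 : Measurable fun x : Torus => cn x.1 * cn x.2 :=
    ((cn_cont.comp continuous_fst).mul (cn_cont.comp continuous_snd)).measurable
  refine Measurable.ite ?_ h1 (Measurable.ite ?_ h1.neg measurable_const)
  · exact (isClosed_singleton.preimage (sn_cont.comp continuous_fst)).measurableSet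
  · exact (isClosed_singleton.preimage (sn_cont.comp continuous_snd)).measurableSet

theorem W2_proj (z : Plane) : W2 (proj z) =
    if sin z.1 = 0 then cos z.1 * cos z.2 else if sin z.2 = 0 then -(cos z.1 * cos z.2) else 0 := by
  unfold W2 proj; simp only [sn_coe, cn_coe]

theorem W2_bdd (x : Torus) : |W2 x| ≤ 1 := by
  obtain ⟨z, rfl⟩ := proj_surj x
  have h : |cos z.1 * cos z.2| ≤ 1 := by
    rw [abs_mul]
    calc |cos z.1| * |cos z.2| ≤ 1 * 1 :=
          mul_le_mul (abs_cos_le_one _) (abs_cos_le_one _) (abs_nonneg _) (by norm_num)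
      _ = 1 := by norm_num
  rw [W2_proj]
  split_ifs
  · exact h
  · rw [abs_neg]; exact h
  · simp

theorem cos_sq_of_sin {a : ℝ} (h : sin a = 0) : cos a = 1 ∨ cos a = -1 := by
  have := sin_sq_add_cos_sq a
  rw [h] at this
  have h2 : cos a ^ 2 = 1 := by linarith
  have h3 : (cos a - 1) * (cos a + 1) = 0 := by nlinarith
  rcases mul_eq_zero.1 h3 with h | h
  · left; linarith
  · right; linarith

/-- On `sin = 0`: growth of the product of the cosines. -/
theorem line1 {z : Plane} (h1 : sin z.1 = 0) :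
    cos z.1 * cos z.2 + 5 / 128 * sin z.2 ^ 2 ≤ cos (FF z).1 * cos (FF z).2 := by
  have e1 : (FF z).1 = z.1 := by rw [FF_fst, h1]; ring
  have hb := abs_le.1 (abs_cos_le_one z.2)
  rw [e1]
  rcases cos_sq_of_sin h1 with h | h
  · have e2 : (FF z).2 = z.2 - (1 / 4 * (1 + cos z.2 / 2)) * sin z.2 := by
      rw [FF_snd, h]; ring
    have hk := key2 z.2 (1 / 4 * (1 + cos z.2 / 2)) (by linarith [hb.1]) (by linarith [hb.2])
    rw [e2, h]
    nlinarith [sq_nonneg (sin z.2), hb.1]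
  · have e2 : (FF z).2 = z.2 + (1 / 4 * (1 - cos z.2 / 2)) * sin z.2 := by
      rw [FF_snd, h]; ring
    have hk := key2' z.2 (1 / 4 * (1 - cos z.2 / 2)) (by linarith [hb.2]) (by linarith [hb.1])
    rw [e2, h]
    nlinarith [sq_nonneg (sin z.2), hb.2]

theorem line2 {z : Plane} (h2 : sin z.2 = 0) :
    -(cos z.1 * cos z.2) + 5 / 128 * sin z.1 ^ 2 ≤ -(cos (FF z).1 * cos (FF z).2) := by
  have e1 : (FF z).2 = z.2 := by rw [FF_snd, h2]; ring
  have hb := abs_le.1 (abs_cos_le_one z.1)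
  rw [e1]
  rcases cos_sq_of_sin h2 with h | h
  · have e2 : (FF z).1 = z.1 + (1 / 4 * (1 - cos z.1 / 2)) * sin z.1 := by
      rw [FF_fst, h]
    have hk := key2' z.1 (1 / 4 * (1 - cos z.1 / 2)) (by linarith [hb.2]) (by linarith [hb.1])
    rw [e2, h]
    nlinarith [sq_nonneg (sin z.1), hb.2]
  · have e2 : (FF z).1 = z.1 - (1 / 4 * (1 + cos z.1 / 2)) * sin z.1 := by
      rw [FF_fst, h]; ring
    have hk := key2 z.1 (1 / 4 * (1 + cos z.1 / 2)) (by linarith [hb.1]) (by linarith [hb.2])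
    rw [e2, h]
    nlinarith [sq_nonneg (sin z.1), hb.1]

theorem sin_FF_fst_ne {z : Plane} (h : sin z.1 ≠ 0) : sin (FF z).1 ≠ 0 := by
  rw [FF_fst]
  exact key3 (t_bound z.1 z.2).1 h

theorem sin_FF_snd_ne {z : Plane} (h : sin z.2 ≠ 0) : sin (FF z).2 ≠ 0 := by
  rw [FF_snd]
  exact key3 (t_bound z.1 z.2).2 h

theorem W2_step (z : Plane) : (sin z.1 = 0 →
      W2 (proj z) + 5 / 128 * sin z.2 ^ 2 ≤ W2 (ff (proj z))) ∧
    (sin z.1 ≠ 0 → sin z.2 = 0 → W2 (proj z) + 5 / 128 * sin z.1 ^ 2 ≤ W2 (ff (proj z))) ∧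
    (sin z.1 ≠ 0 → sin z.2 ≠ 0 → W2 (ff (proj z)) = W2 (proj z)) := by
  rw [ff_lift, W2_proj, W2_proj]
  refine ⟨fun h1 => ?_, fun h1 h2 => ?_, fun h1 h2 => ?_⟩
  · have e1 : (FF z).1 = z.1 := by rw [FF_fst, h1]; ring
    rw [if_pos h1, if_pos (by rw [e1]; exact h1)]
    exact line1 h1
  · have e1 : (FF z).2 = z.2 := by rw [FF_snd, h2]; ring
    rw [if_neg h1, if_pos h2, if_neg (sin_FF_fst_ne h1), if_pos (by rw [e1]; exact h2)]
    exact line2 h2
  · rw [if_neg h1, if_neg h2, if_neg (sin_FF_fst_ne h1), if_neg (sin_FF_snd_ne h2)]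

theorem W2_mono (x : Torus) : W2 x ≤ W2 (ff x) := by
  obtain ⟨z, rfl⟩ := proj_surj x
  obtain ⟨h1, h2, h3⟩ := W2_step z
  by_cases hs : sin z.1 = 0
  · have := h1 hs; nlinarith [sq_nonneg (sin z.2)]
  · by_cases hs2 : sin z.2 = 0
    · have := h2 hs hs2; nlinarith [sq_nonneg (sin z.1)]
    · exact (h3 hs hs2).ge

theorem W2_eq {z : Plane} (h : W2 (ff (proj z)) = W2 (proj z))
    (h0 : sin z.1 = 0 ∨ sin z.2 = 0) : sin z.1 = 0 ∧ sin z.2 = 0 := by
  obtain ⟨h1, h2, -⟩ := W2_step z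
  by_cases hs : sin z.1 = 0
  · have := h1 hs
    refine ⟨hs, ?_⟩
    nlinarith [sq_nonneg (sin z.2)]
  · have hs2 : sin z.2 = 0 := h0.resolve_left hs
    have := h2 hs hs2
    have h5 : sin z.1 ^ 2 ≤ 0 := by linarith
    exact absurd (by nlinarith [sq_nonneg (sin z.1)]) hs

/-- The set of the eight fixed points. -/
def PP : Set Torus := {x | (sn x.1 = 0 ∧ sn x.2 = 0) ∨ (cn x.1 = 0 ∧ cn x.2 = 0)}

theorem mem_PP (z : Plane) : proj z ∈ PP ↔
    (sin z.1 = 0 ∧ sin z.2 = 0) ∨ (cos z.1 = 0 ∧ cos z.2 = 0) := by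
  unfold PP proj; simp only [Set.mem_ofPred_eq, sn_coe, cn_coe]

theorem FF_fixed {z : Plane} (h : proj z ∈ PP) : FF z = z := by
  rw [mem_PP] at h
  rcases h with ⟨h1, h2⟩ | ⟨h1, h2⟩
  · unfold FF g1 g2; rw [h1, h2]; simp
  · unfold FF g1 g2; rw [h1, h2]; simp

theorem ff_fixed {x : Torus} (h : x ∈ PP) : ff x = x := by
  obtain ⟨z, rfl⟩ := proj_surj x
  rw [ff_lift, FF_fixed h]

/-- Every invariant probability measure is carried by the fixed points. -/
theorem ae_mem_PP {ρ : Measure Torus} (h : IsInvariant ff ρ) : ∀ᵐ x ∂ρ, x ∈ PP := by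
  haveI := h.prob
  have h1 := Pool.Agent.Q154.KI.mea Torus ff ρ h.inv W1 W1_cont.measurable ⟨1, W1_bdd⟩ W1_mono
  have h2 := Pool.Agent.Q154.KI.mea Torus ff ρ h.inv W2 W2_meas ⟨1, W2_bdd⟩ W2_mono
  filter_upwards [h1, h2] with x hx1 hx2
  obtain ⟨z, rfl⟩ := proj_surj x
  rw [mem_PP]
  rcases W1_eq hx1 with h3 | h3 | h3
  · exact Or.inl (W2_eq hx2 (Or.inl h3))
  · exact Or.inl (W2_eq hx2 (Or.inr h3))
  · exact Or.inr h3

theorem entropy_zero {ρ : Measure Torus} (h : IsInvariant ff ρ) :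
    Pool.Agent.Q127.KI.ksEntropy ff ρ = 0 := by
  haveI := h.prob
  refine Pool.Agent.Q256.KI.ksz Torus ff ρ ?_
  filter_upwards [ae_mem_PP h] with x hx using ff_fixed hx

theorem PP_finite : PP.Finite := by
  have hs : {a : AddCircle (2 * π) | sn a = 0}.Finite := by
    refine Set.Finite.subset (Set.toFinite {((0 : ℝ) : AddCircle (2 * π)),
      ((π : ℝ) : AddCircle (2 * π))}) fun a ha => ?_
    have := Real.Angle.sin_eq_zero_iff.1 ha
    rcases this with h | h
    · exact Or.inl h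
    · exact Or.inr h
  have hc : {a : AddCircle (2 * π) | cn a = 0}.Finite := by
    refine Set.Finite.subset (Set.toFinite {((π / 2 : ℝ) : AddCircle (2 * π)),
      ((-π / 2 : ℝ) : AddCircle (2 * π))}) fun a ha => ?_
    have := Real.Angle.cos_eq_zero_iff.1 ha
    rcases this with h | h
    · exact Or.inl h
    · exact Or.inr h
  refine ((hs.prod hs).union (hc.prod hc)).subset fun x hx => ?_
  rcases hx with h | h
  · exact Or.inl h
  · exact Or.inr h

end Run7.h501.FE
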