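import Pool.Agent.Run7.h501.FE.Dyn

/-!
# The Lyapunov exponents at the fixed points
-/

set_option autoImplicit false

open Set Filter Topology MeasureTheory Function Real
open scoped ContDiff

namespace Run7.h501.FE

theorem tendsto_log_geom {c r : ℝ} (hc : 0 < c) (hr : 0 < r) :
    Tendsto (fun n : ℕ => (1 / (n : ℝ)) * Real.log (c * r ^ n)) atTop (𝓝 (Real.log r)) := by
  have h1 : Tendsto (fun n : ℕ => (1 / (n : ℝ)) * Real.log c + Real.log r) atTop
      (𝓝 (0 * Real.log c + Real.log r)) :=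
    (tendsto_one_div_atTop_nhds_zero_nat.mul_const _).add_const _
  rw [zero_mul, zero_add] at h1
  refine h1.congr' ?_
  filter_upwards [eventually_gt_atTop 0] with n hn
  have hn' : (n : ℝ) ≠ 0 := by positivity
  rw [Real.log_mul hc.ne' (by positivity), Real.log_pow]
  field_simp

theorem tendsto_log_geom_neg {c r : ℝ} (hc : 0 < c) (hr : 0 < r) :
    Tendsto (fun n : ℕ => (1 / (-n : ℝ)) * Real.log (c * r⁻¹ ^ n)) atTop (𝓝 (Real.log r)) := by
  have h := (tendsto_log_geom hc (inv_pos.2 hr)).neg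
  rw [Real.log_inv, neg_neg] at h
  refine h.congr fun n => ?_
  rw [div_neg, neg_mul]

/-- A lower bound for `χ₊`. -/
theorem chi_ge {F G : Plane → Plane} {z : Plane} {c r : ℝ} (hr : 1 < r)
    (ℓ : Plane →ₗ[ℝ] ℝ) (hℓ : ℓ ≠ 0)
    (hu : ∀ u, ℓ u ≠ 0 → ∃ k : ℝ, 0 < k ∧ ∀ n : ℕ, k * r ^ n ≤ ‖fderiv ℝ (F^[n]) z u‖)
    (hc : IsChiPlus F G z c) : Real.log r ≤ c := by
  obtain ⟨m, V, χ, hV, rfl⟩ := hc
  have hex : ∃ i, ∃ u ∈ V i, ℓ u ≠ 0 := by
    by_contra hcon
    push Not at hcon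
    have h1 : (⨆ i, V i) ≤ LinearMap.ker ℓ := iSup_le fun i u hu => hcon i u hu
    rw [hV.internal.submodule_iSup_eq_top] at h1
    exact hℓ (LinearMap.ker_eq_top.1 (top_le_iff.1 h1))
  obtain ⟨i, u, hui, hul⟩ := hex
  obtain ⟨k, hk, hkn⟩ := hu u hul
  have hu0 : u ≠ 0 := fun h => hul (by rw [h, map_zero])
  have h1 := hV.forward i u hui hu0
  have h2 : Real.log r ≤ χ i := by
    refine le_of_tendsto_of_tendsto (tendsto_log_geom hk (by linarith)) h1 ?_
    filter_upwards [eventually_gt_atTop 0] with n hn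
    refine mul_le_mul_of_nonneg_left ?_ (by positivity)
    exact Real.log_le_log (by positivity) (hkn n)
  have h3 : (1 : ℝ) ≤ Module.finrank ℝ (V i) := by
    have : 0 < Module.finrank ℝ (V i) := by
      rw [Module.finrank_pos_iff]
      exact Submodule.nontrivial_iff_ne_bot.2 (hV.ne_bot i)
    exact_mod_cast this
  have h4 : 0 ≤ Real.log r := Real.log_nonneg hr.le
  have h5 : max (χ i) 0 * (Module.finrank ℝ (V i) : ℝ) ≤
      ∑ j, max (χ j) 0 * (Module.finrank ℝ (V j) : ℝ) :=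
    Finset.single_le_sum (f := fun j => max (χ j) 0 * (Module.finrank ℝ (V j) : ℝ))
      (fun j _ => by positivity) (Finset.mem_univ i)
  refine le_trans ?_ h5
  calc Real.log r ≤ χ i := h2
    _ ≤ max (χ i) 0 * 1 := by rw [mul_one]; exact le_max_left _ _
    _ ≤ _ := mul_le_mul_of_nonneg_left h3 (le_max_right _ _)

/-! ### Derivatives at the fixed points -/

/-- the derivative at a fixed point -/
noncomputable def DD (z : Plane) : Plane →L[ℝ] Plane := 1 + TT z

theorem DD_apply (z v : Plane) :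
    DD z v = ((1 + a11 z) * v.1 + a12 z * v.2, a21 z * v.1 + (1 + a22 z) * v.2) := by
  unfold DD
  rw [_root_.add_apply, TT_apply]
  ext <;> simp <;> ring

theorem fderiv_iter {z : Plane} (h : FF z = z) (n : ℕ) : fderiv ℝ (FF^[n]) z = DD z ^ n :=
  ((hasFDerivAt_FF z).iterate h n).fderiv

/-- the derivative of the inverse -/
noncomputable def EE (z : Plane) : Plane →L[ℝ] Plane := fderiv ℝ GG z

theorem GG_fixed {z : Plane} (h : FF z = z) : GG z = z := by
  conv_lhs => rw [← h]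
  exact GG_FF z

theorem hasFDerivAt_GG (z : Plane) : HasFDerivAt GG (EE z) z :=
  (GG_contDiff.differentiable (by simp)).differentiableAt.hasFDerivAt

theorem fderiv_iterG {z : Plane} (h : FF z = z) (n : ℕ) : fderiv ℝ (GG^[n]) z = EE z ^ n :=
  ((hasFDerivAt_GG z).iterate (GG_fixed h) n).fderiv

theorem EE_DD {z : Plane} (h : FF z = z) (v : Plane) : EE z (DD z v) = v := by
  have h1 : HasFDerivAt (GG ∘ FF) ((EE z).comp (DD z)) z := by
    have h2 : HasFDerivAt GG (EE z) (FF z) := by rw [h]; exact hasFDerivAt_GG z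
    exact h2.comp z (hasFDerivAt_FF z)
  have h3 : GG ∘ FF = id := funext GG_FF
  rw [h3] at h1
  have h4 := h1.unique (hasFDerivAt_id z)
  exact congrArg (fun L : Plane →L[ℝ] Plane => L v) h4

/-! ### Saddles -/

section saddle

variable {z : Plane} {p q : ℝ}

theorem pow_diag {L : Plane →L[ℝ] Plane} (hL : ∀ v, L v = (p * v.1, q * v.2)) (n : ℕ) (v : Plane) :
    (L ^ n) v = (p ^ n * v.1, q ^ n * v.2) := by
  induction n with
  | zero => simp
  | succ n ih =>
    rw [pow_succ', mul_apply_eq_comp, ih, hL]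
    ext <;> simp <;> ring

/-- the axes -/
def ax (i : Fin 2) : Submodule ℝ Plane :=
  if i = 0 then LinearMap.ker (LinearMap.snd ℝ ℝ ℝ) else LinearMap.ker (LinearMap.fst ℝ ℝ ℝ)

theorem mem_ax0 {u : Plane} : u ∈ ax 0 ↔ u.2 = 0 := by simp [ax]
theorem mem_ax1 {u : Plane} : u ∈ ax 1 ↔ u.1 = 0 := by simp [ax]

theorem ax_internal : DirectSum.IsInternal ax := by
  rw [DirectSum.isInternal_submodule_iff_isCompl ax (i := 0) (j := 1) (by decide)
    (by ext i; fin_cases i <;> simp)]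
  constructor
  · rw [Submodule.disjoint_def]
    intro x h0 h1
    exact Prod.ext (mem_ax1.1 h1) (mem_ax0.1 h0)
  · rw [codisjoint_iff, Submodule.eq_top_iff']
    intro x
    rw [Submodule.mem_sup]
    exact ⟨(x.1, 0), mem_ax0.2 rfl, (0, x.2), mem_ax1.2 rfl, by ext <;> simp⟩

theorem ax_ne_bot (i : Fin 2) : ax i ≠ ⊥ := by
  intro h
  fin_cases i
  · have : ((1, 0) : Plane) ∈ ax 0 := mem_ax0.2 rfl
    rw [show ax 0 = ⊥ from h] at this
    simp at this
  · have : ((0, 1) : Plane) ∈ ax 1 := mem_ax1.2 rfl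
    rw [show ax 1 = ⊥ from h] at this
    simp at this

theorem norm_fst_only (a : ℝ) : ‖((a, 0) : Plane)‖ = |a| := by simp [Prod.norm_def]
theorem norm_snd_only (a : ℝ) : ‖((0, a) : Plane)‖ = |a| := by simp [Prod.norm_def]

/-- At a saddle the splitting is given by the axes. -/
theorem saddle_oseledets (h : FF z = z) (hp : 0 < p) (hq : 0 < q) (hpq : p ≠ q)
    (hD : ∀ v, DD z v = (p * v.1, q * v.2)) :
    IsOseledets FF GG z ax ![Real.log p, Real.log q] := by
  have hE : ∀ v, EE z v = (p⁻¹ * v.1, q⁻¹ * v.2) := by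
    intro v
    have h1 := EE_DD h (p⁻¹ * v.1, q⁻¹ * v.2)
    rw [hD] at h1
    simp only at h1
    rw [mul_inv_cancel_left₀ hp.ne', mul_inv_cancel_left₀ hq.ne'] at h1
    exact h1
  refine ⟨ax_internal, ax_ne_bot, ?_, ?_, ?_⟩
  · intro i j hij
    have hlog : Real.log p ≠ Real.log q := fun h => hpq (Real.log_injOn_pos hp hq h)
    fin_cases i <;> fin_cases j
    · rfl
    · exact absurd hij hlog
    · exact absurd hij.symm hlog
    · rfl
  · intro i u hu hu0
    simp only [fderiv_iter h]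
    fin_cases i
    · have h2 : u.2 = 0 := mem_ax0.1 hu
      have h1 : u.1 ≠ 0 := fun h1 => hu0 (Prod.ext h1 h2)
      refine (tendsto_log_geom (abs_pos.2 h1) hp).congr fun n => ?_
      rw [pow_diag hD, h2, mul_zero, norm_fst_only, abs_mul, abs_pow, abs_of_pos hp]
      ring_nf
    · have h2 : u.1 = 0 := mem_ax1.1 hu
      have h1 : u.2 ≠ 0 := fun h1 => hu0 (Prod.ext h2 h1)
      refine (tendsto_log_geom (abs_pos.2 h1) hq).congr fun n => ?_
      rw [pow_diag hD, h2, mul_zero, norm_snd_only, abs_mul, abs_pow, abs_of_pos hq]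
      ring_nf
  · intro i u hu hu0
    simp only [fderiv_iterG h]
    fin_cases i
    · have h2 : u.2 = 0 := mem_ax0.1 hu
      have h1 : u.1 ≠ 0 := fun h1 => hu0 (Prod.ext h1 h2)
      refine (tendsto_log_geom_neg (abs_pos.2 h1) hp).congr fun n => ?_
      rw [pow_diag hE, h2, mul_zero, norm_fst_only, abs_mul, abs_pow, abs_of_pos (inv_pos.2 hp),
        mul_comm |u.1|]
    · have h2 : u.1 = 0 := mem_ax1.1 hu
      have h1 : u.2 ≠ 0 := fun h1 => hu0 (Prod.ext h2 h1)
      refine (tendsto_log_geom_neg (abs_pos.2 h1) hq).congr fun n => ?_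
      rw [pow_diag hE, h2, mul_zero, norm_snd_only, abs_mul, abs_pow, abs_of_pos (inv_pos.2 hq),
        mul_comm |u.2|]

theorem saddle_chi (h : FF z = z) (hp : 0 < p) (hq : 0 < q) (hpq : p ≠ q)
    (hD : ∀ v, DD z v = (p * v.1, q * v.2)) : ∃ c, IsChiPlus FF GG z c :=
  ⟨_, 2, ax, _, saddle_oseledets h hp hq hpq hD, rfl⟩

theorem saddle_ge_fst (h : FF z = z) (hp : 1 < p)
    (hD : ∀ v, DD z v = (p * v.1, q * v.2)) {c : ℝ} (hc : IsChiPlus FF GG z c) :
    Real.log p ≤ c := by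
  refine chi_ge hp (LinearMap.fst ℝ ℝ ℝ) ?_ (fun u hu => ⟨|u.1|, abs_pos.2 hu, fun n => ?_⟩) hc
  · intro h0
    have := congrArg (fun L : Plane →ₗ[ℝ] ℝ => L (1, 0)) h0
    simp at this
  · rw [fderiv_iter h, pow_diag hD]
    refine le_trans (le_of_eq ?_) (norm_fst_le _)
    rw [Real.norm_eq_abs, abs_mul, abs_pow, abs_of_pos (by linarith : 0 < p), mul_comm]

theorem saddle_ge_snd (h : FF z = z) (hq : 1 < q)
    (hD : ∀ v, DD z v = (p * v.1, q * v.2)) {c : ℝ} (hc : IsChiPlus FF GG z c) :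
    Real.log q ≤ c := by
  refine chi_ge hq (LinearMap.snd ℝ ℝ ℝ) ?_ (fun u hu => ⟨|u.2|, abs_pos.2 hu, fun n => ?_⟩) hc
  · intro h0
    have := congrArg (fun L : Plane →ₗ[ℝ] ℝ => L (0, 1)) h0
    simp at this
  · rw [fderiv_iter h, pow_diag hD]
    refine le_trans (le_of_eq ?_) (norm_snd_le _)
    rw [Real.norm_eq_abs, abs_mul, abs_pow, abs_of_pos (by linarith : 0 < q), mul_comm]

end saddle

/-! ### Sources -/

section source

variable {z : Plane} {s : ℝ}

/-- the square of the euclidean norm -/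
def Q (v : Plane) : ℝ := v.1 ^ 2 + v.2 ^ 2

theorem Q_le (v : Plane) : Q v ≤ 2 * ‖v‖ ^ 2 := by
  have h1 := norm_fst_le v
  have h2 := norm_snd_le v
  rw [Real.norm_eq_abs] at h1 h2
  have h3 : v.1 ^ 2 ≤ ‖v‖ ^ 2 := by rw [← sq_abs]; exact pow_le_pow_left₀ (abs_nonneg _) h1 2
  have h4 : v.2 ^ 2 ≤ ‖v‖ ^ 2 := by rw [← sq_abs]; exact pow_le_pow_left₀ (abs_nonneg _) h2 2
  unfold Q; linarith

theorem le_Q (v : Plane) : ‖v‖ ^ 2 ≤ Q v := by
  rw [Prod.norm_def, Real.norm_eq_abs, Real.norm_eq_abs]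
  unfold Q
  rcases max_cases |v.1| |v.2| with ⟨h, -⟩ | ⟨h, -⟩
  · rw [h, sq_abs]; nlinarith [sq_nonneg v.2]
  · rw [h, sq_abs]; nlinarith [sq_nonneg v.1]

theorem Q_pos {v : Plane} (h : v ≠ 0) : 0 < Q v := by
  have := le_Q v
  have h2 : 0 < ‖v‖ := norm_pos_iff.2 h
  nlinarith

theorem pow_conf {L : Plane →L[ℝ] Plane} {r : ℝ} (hL : ∀ v, Q (L v) = r ^ 2 * Q v) (n : ℕ)
    (v : Plane) : Q ((L ^ n) v) = (r ^ n) ^ 2 * Q v := by
  induction n with
  | zero => simp
  | succ n ih => rw [pow_succ', mul_apply_eq_comp, hL, ih]; ring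

theorem norm_conf {L : Plane →L[ℝ] Plane} {r : ℝ} (hr : 0 < r) (hL : ∀ v, Q (L v) = r ^ 2 * Q v)
    (n : ℕ) (v : Plane) : sqrt (Q v / 2) * r ^ n ≤ ‖(L ^ n) v‖ ∧
      ‖(L ^ n) v‖ ≤ sqrt (Q v) * r ^ n := by
  have h1 := Q_le ((L ^ n) v)
  have h2 := le_Q ((L ^ n) v)
  rw [pow_conf hL] at h1 h2
  have hq : 0 ≤ Q v := by unfold Q; positivity
  constructor
  · refine abs_le_of_sq_le_sq' ?_ (norm_nonneg _) |>.2
    rw [mul_pow, Real.sq_sqrt (by positivity)]
    nlinarith
  · refine abs_le_of_sq_le_sq' ?_ (by positivity) |>.2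
    rw [mul_pow, Real.sq_sqrt hq]
    nlinarith

theorem tendsto_conf {L : Plane →L[ℝ] Plane} {r : ℝ} (hr : 0 < r)
    (hL : ∀ v, Q (L v) = r ^ 2 * Q v) {v : Plane} (hv : v ≠ 0) :
    Tendsto (fun n : ℕ => (1 / (n : ℝ)) * Real.log ‖(L ^ n) v‖) atTop (𝓝 (Real.log r)) := by
  have hq := Q_pos hv
  have h1 := tendsto_log_geom (c := sqrt (Q v / 2)) (r := r) (by positivity) hr
  have h2 := tendsto_log_geom (c := sqrt (Q v)) (r := r) (by positivity) hr
  refine tendsto_of_tendsto_of_tendsto_of_le_of_le h1 h2 (fun n => ?_) (fun n => ?_)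
  · have h3 := (norm_conf hr hL n v).1
    exact mul_le_mul_of_nonneg_left (Real.log_le_log (by positivity) h3) (by positivity)
  · have h3 := (norm_conf hr hL n v).1
    have h4 := (norm_conf hr hL n v).2
    have h5 : 0 < sqrt (Q v / 2) * r ^ n := by positivity
    exact mul_le_mul_of_nonneg_left (Real.log_le_log (h5.trans_le h3) h4) (by positivity)

theorem top_internal : DirectSum.IsInternal (fun _ : Fin 1 => (⊤ : Submodule ℝ Plane)) := by
  rw [DirectSum.isInternal_submodule_iff_iSupIndep_and_iSup_eq_top]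
  constructor
  · intro i
    have : (⨆ j, ⨆ (_ : j ≠ i), (⊤ : Submodule ℝ Plane)) = ⊥ := by
      simp only [iSup_eq_bot]
      intro j hj
      exact absurd (Subsingleton.elim j i) hj
    simp only [this]
    exact disjoint_bot_right
  · simp

theorem source_oseledets (h : FF z = z) {r : ℝ} (hr : 0 < r)
    (hD : ∀ v, Q (DD z v) = r ^ 2 * Q v) (hE : ∀ v, Q (EE z v) = r⁻¹ ^ 2 * Q v) :
    IsOseledets FF GG z (fun _ : Fin 1 => ⊤) (fun _ => Real.log r) := by
  refine ⟨top_internal, fun i => top_ne_bot, fun i j _ => Subsingleton.elim i j, ?_, ?_⟩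
  · intro i u _ hu0
    simp only [fderiv_iter h]
    exact tendsto_conf hr hD hu0
  · intro i u _ hu0
    simp only [fderiv_iterG h]
    have h1 := (tendsto_conf (inv_pos.2 hr) hE hu0).neg
    rw [Real.log_inv, neg_neg] at h1
    refine h1.congr fun n => ?_
    rw [div_neg, neg_mul]

theorem source_ge (h : FF z = z) {r : ℝ} (hr : 1 < r)
    (hD : ∀ v, Q (DD z v) = r ^ 2 * Q v) {c : ℝ} (hc : IsChiPlus FF GG z c) :
    Real.log r ≤ c := by
  refine chi_ge hr (LinearMap.fst ℝ ℝ ℝ) ?_ (fun u hu => ⟨sqrt (Q u / 2), ?_, fun n => ?_⟩) hc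
  · intro h0
    have := congrArg (fun L : Plane →ₗ[ℝ] ℝ => L (1, 0)) h0
    simp at this
  · have : u ≠ 0 := fun h0 => hu (by rw [h0]; simp)
    have := Q_pos this
    positivity
  · rw [fderiv_iter h]
    exact (norm_conf (by linarith) hD n u).1

end source

/-! ### The fixed points of the map -/

theorem cos_sq_one {a : ℝ} (h : sin a = 0) : cos a ^ 2 = 1 := by
  have := sin_sq_add_cos_sq a; rw [h] at this; linarith
theorem sin_sq_one {a : ℝ} (h : cos a = 0) : sin a ^ 2 = 1 := by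
  have := sin_sq_add_cos_sq a; rw [h] at this; linarith

theorem fixed_cases {z : Plane} (hz : proj z ∈ PP) :
    (∀ v, DD z v = (9 / 8 * v.1, 5 / 8 * v.2)) ∨ (∀ v, DD z v = (5 / 8 * v.1, 9 / 8 * v.2)) ∨
    ((∀ v, Q (DD z v) = sqrt (85 / 64) ^ 2 * Q v) ∧
      (∀ v, Q (EE z v) = (sqrt (85 / 64))⁻¹ ^ 2 * Q v)) := by
  have hfix := FF_fixed hz
  rw [mem_PP] at hz
  rcases hz with ⟨h1, h2⟩ | ⟨h1, h2⟩
  · have c1 := cos_sq_one h1
    have c2 := cos_sq_one h2
    have e : (cos z.1 * cos z.2 - 1) * (cos z.1 * cos z.2 + 1) = 0 := by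
      have : (cos z.1 * cos z.2) ^ 2 = 1 := by rw [mul_pow, c1, c2, one_mul]
      linarith [this, sq (cos z.1 * cos z.2)]
    rcases mul_eq_zero.1 e with e | e
    · left
      intro v
      have e' : cos z.1 * cos z.2 = 1 := by linarith
      rw [DD_apply]
      unfold a11 a12 a21 a22
      rw [h1, h2]
      ext
      · simp only; linear_combination (1 / 4 * v.1) * e' - (1 / 8 * v.1) * c1
      · simp only; linear_combination (-1 / 4 * v.2) * e' - (1 / 8 * v.2) * c2
    · right; left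
      intro v
      have e' : cos z.1 * cos z.2 = -1 := by linarith
      rw [DD_apply]
      unfold a11 a12 a21 a22
      rw [h1, h2]
      ext
      · simp only; linear_combination (1 / 4 * v.1) * e' - (1 / 8 * v.1) * c1
      · simp only; linear_combination (-1 / 4 * v.2) * e' - (1 / 8 * v.2) * c2
  · right; right
    have c1 := sin_sq_one h1
    have c2 := sin_sq_one h2
    have hD : ∀ v, DD z v = (9 / 8 * v.1 - 1 / 4 * (sin z.1 * sin z.2) * v.2,
        1 / 4 * (sin z.1 * sin z.2) * v.1 + 9 / 8 * v.2) := by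
      intro v
      rw [DD_apply]
      unfold a11 a12 a21 a22
      rw [h1, h2]
      ext
      · simp only; linear_combination (1 / 8 * v.1) * c1
      · simp only; linear_combination (1 / 8 * v.2) * c2
    have hs : (sin z.1 * sin z.2) ^ 2 = 1 := by rw [mul_pow, c1, c2, one_mul]
    have hq : ∀ v, Q (DD z v) = sqrt (85 / 64) ^ 2 * Q v := by
      intro v
      rw [Real.sq_sqrt (by norm_num), hD]
      unfold Q
      simp only
      linear_combination (1 / 16 * v.1 ^ 2 + 1 / 16 * v.2 ^ 2) * hs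
    refine ⟨hq, fun v => ?_⟩
    have hsurj : ∃ w, DD z w = v := by
      have hf : Function.Injective (DD z) := by
        intro a b hab
        have := congrArg (EE z) hab
        rwa [EE_DD hfix, EE_DD hfix] at this
      exact (LinearMap.injective_iff_surjective (f := (DD z : Plane →ₗ[ℝ] Plane))).1 hf v
    obtain ⟨w, rfl⟩ := hsurj
    rw [EE_DD hfix, hq, ← mul_assoc, ← mul_pow, inv_mul_cancel₀ (by positivity), one_pow, one_mul]

theorem one_lt_r : 1 < sqrt (85 / 64) := by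
  rw [Real.lt_sqrt (by norm_num)]; norm_num

/-- The sum of the positive exponents exists at the fixed points. -/
theorem exists_chi {z : Plane} (hz : proj z ∈ PP) : ∃ c, IsChiPlus FF GG z c := by
  have hfix := FF_fixed hz
  rcases fixed_cases hz with h | h | ⟨h, h'⟩
  · exact saddle_chi hfix (by norm_num) (by norm_num) (by norm_num) h
  · exact saddle_chi hfix (by norm_num) (by norm_num) (by norm_num) h
  · exact ⟨_, 1, _, _, source_oseledets hfix (by linarith [one_lt_r]) h h', rfl⟩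

/-- It is at least `log (9/8)`. -/
theorem chi_lower {z : Plane} (hz : proj z ∈ PP) {c : ℝ} (hc : IsChiPlus FF GG z c) :
    Real.log (9 / 8) ≤ c := by
  have hfix := FF_fixed hz
  rcases fixed_cases hz with h | h | ⟨h, h'⟩
  · exact saddle_ge_fst hfix (by norm_num) h hc
  · exact saddle_ge_snd hfix (by norm_num) h hc
  · refine le_trans (Real.log_le_log (by norm_num) ?_) (source_ge hfix one_lt_r h hc)
    rw [Real.le_sqrt (by norm_num) (by norm_num)]; norm_num

end Run7.h501.FE
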