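import Pool.Agent.Run7.h501.FE.Defs

/-!
# The map and its inverse
-/

set_option autoImplicit false

open Set Filter Topology MeasureTheory Function Real
open scoped ContDiff

namespace Run7.h501.FE

/-- The first component of the displacement. -/
noncomputable def g1 (z : Plane) : ℝ := 1 / 4 * (sin z.1 * (cos z.2 - cos z.1 / 2))
/-- The second component of the displacement. -/
noncomputable def g2 (z : Plane) : ℝ := -(1 / 4 * (sin z.2 * (cos z.1 + cos z.2 / 2)))

/-- The lift. -/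
noncomputable def FF (z : Plane) : Plane := (z.1 + g1 z, z.2 + g2 z)

theorem FF_contDiff : ContDiff ℝ ω FF := by
  unfold FF g1 g2
  fun_prop

/-- partial derivatives of the displacement -/
noncomputable def a11 (z : Plane) : ℝ :=
  1 / 4 * (cos z.1 * (cos z.2 - cos z.1 / 2) + sin z.1 * (sin z.1 / 2))
noncomputable def a12 (z : Plane) : ℝ := -(1 / 4 * (sin z.1 * sin z.2))
noncomputable def a21 (z : Plane) : ℝ := 1 / 4 * (sin z.1 * sin z.2)
noncomputable def a22 (z : Plane) : ℝ :=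
  -(1 / 4 * (cos z.2 * (cos z.1 + cos z.2 / 2) - sin z.2 * (sin z.2 / 2)))

/-- The derivative of the displacement. -/
noncomputable def TT (z : Plane) : Plane →L[ℝ] Plane :=
  (a11 z • ContinuousLinearMap.fst ℝ ℝ ℝ + a12 z • ContinuousLinearMap.snd ℝ ℝ ℝ).prod
    (a21 z • ContinuousLinearMap.fst ℝ ℝ ℝ + a22 z • ContinuousLinearMap.snd ℝ ℝ ℝ)

theorem TT_apply (z v : Plane) :
    TT z v = (a11 z * v.1 + a12 z * v.2, a21 z * v.1 + a22 z * v.2) := by
  simp [TT]

theorem hasFDerivAt_g1 (z : Plane) : HasFDerivAt g1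
    (a11 z • ContinuousLinearMap.fst ℝ ℝ ℝ + a12 z • ContinuousLinearMap.snd ℝ ℝ ℝ) z := by
  have h1 : HasFDerivAt (fun z : Plane => z.1) (ContinuousLinearMap.fst ℝ ℝ ℝ) z := hasFDerivAt_fst
  have h2 : HasFDerivAt (fun z : Plane => z.2) (ContinuousLinearMap.snd ℝ ℝ ℝ) z := hasFDerivAt_snd
  have h := ((h1.sin.mul (h2.cos.sub (h1.cos.mul_const (1 / 2)))).const_mul (1 / 4 : ℝ))
  have h' : HasFDerivAt g1 _ z := h.congr_of_eventuallyEq (Eventually.of_forall fun w => by
    simp only [g1, Pi.mul_apply, Pi.sub_apply]; ring)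
  refine h'.congr_fderiv ?_
  ext <;> simp [a11, a12] <;> ring

theorem hasFDerivAt_g2 (z : Plane) : HasFDerivAt g2
    (a21 z • ContinuousLinearMap.fst ℝ ℝ ℝ + a22 z • ContinuousLinearMap.snd ℝ ℝ ℝ) z := by
  have h1 : HasFDerivAt (fun z : Plane => z.1) (ContinuousLinearMap.fst ℝ ℝ ℝ) z := hasFDerivAt_fst
  have h2 : HasFDerivAt (fun z : Plane => z.2) (ContinuousLinearMap.snd ℝ ℝ ℝ) z := hasFDerivAt_snd
  have h := ((h2.sin.mul (h1.cos.add (h2.cos.mul_const (1 / 2)))).const_mul (-(1 / 4) : ℝ))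
  have h' : HasFDerivAt g2 _ z := h.congr_of_eventuallyEq (Eventually.of_forall fun w => by
    simp only [g2, Pi.mul_apply, Pi.add_apply]; ring)
  refine h'.congr_fderiv ?_
  ext <;> simp [a21, a22] <;> ring

theorem hasFDerivAt_FF (z : Plane) : HasFDerivAt FF (1 + TT z) z := by
  have h1 : HasFDerivAt (fun z : Plane => z.1) (ContinuousLinearMap.fst ℝ ℝ ℝ) z := hasFDerivAt_fst
  have h2 : HasFDerivAt (fun z : Plane => z.2) (ContinuousLinearMap.snd ℝ ℝ ℝ) z := hasFDerivAt_snd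
  have h := (h1.add (hasFDerivAt_g1 z)).prodMk (h2.add (hasFDerivAt_g2 z))
  refine HasFDerivAt.congr_fderiv (f := FF) h ?_
  ext <;> simp [TT]

theorem abs_row (x y : ℝ) : |cos x * cos y| + |sin x * sin y| ≤ 1 := by
  rw [abs_mul, abs_mul]
  have h1 := sin_sq_add_cos_sq x
  have h2 := sin_sq_add_cos_sq y
  rw [← sq_abs (sin x), ← sq_abs (cos x)] at h1
  rw [← sq_abs (sin y), ← sq_abs (cos y)] at h2
  nlinarith [sq_nonneg (|cos x| - |cos y|), sq_nonneg (|sin x| - |sin y|)]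

theorem row1 (z : Plane) : |a11 z| + |a12 z| ≤ 3 / 8 := by
  have h := abs_row z.1 z.2
  have e1 : a11 z = 1 / 4 * (cos z.1 * cos z.2) - 1 / 8 * cos (2 * z.1) := by
    rw [cos_two_mul', a11]; ring
  have e2 : a12 z = -(1 / 4 * (sin z.1 * sin z.2)) := rfl
  have h3 : |a11 z| ≤ 1 / 4 * |cos z.1 * cos z.2| + 1 / 8 := by
    rw [e1]
    refine (abs_sub _ _).trans ?_
    rw [abs_mul, abs_mul (1 / 8 : ℝ), abs_of_pos (by norm_num : (0 : ℝ) < 1 / 4),
      abs_of_pos (by norm_num : (0 : ℝ) < 1 / 8)]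
    have := abs_cos_le_one (2 * z.1)
    linarith
  have h4 : |a12 z| = 1 / 4 * |sin z.1 * sin z.2| := by
    rw [e2, abs_neg, abs_mul, abs_of_pos (by norm_num : (0 : ℝ) < 1 / 4)]
  linarith

theorem row2 (z : Plane) : |a21 z| + |a22 z| ≤ 3 / 8 := by
  have h := abs_row z.1 z.2
  have e1 : a22 z = -(1 / 4 * (cos z.1 * cos z.2)) - 1 / 8 * cos (2 * z.2) := by
    rw [cos_two_mul', a22]; ring
  have e2 : a21 z = 1 / 4 * (sin z.1 * sin z.2) := rfl
  have h3 : |a22 z| ≤ 1 / 4 * |cos z.1 * cos z.2| + 1 / 8 := by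
    rw [e1]
    refine (abs_sub _ _).trans ?_
    rw [abs_neg, abs_mul, abs_mul (1 / 8 : ℝ), abs_of_pos (by norm_num : (0 : ℝ) < 1 / 4),
      abs_of_pos (by norm_num : (0 : ℝ) < 1 / 8)]
    have := abs_cos_le_one (2 * z.2)
    linarith
  have h4 : |a21 z| = 1 / 4 * |sin z.1 * sin z.2| := by
    rw [e2, abs_mul, abs_of_pos (by norm_num : (0 : ℝ) < 1 / 4)]
  linarith

theorem comb_le {a b c : ℝ} (h : |a| + |b| ≤ c) (v : Plane) : |a * v.1 + b * v.2| ≤ c * ‖v‖ := by
  have h1 : |v.1| ≤ ‖v‖ := by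
    have := norm_fst_le v; simpa using this
  have h2 : |v.2| ≤ ‖v‖ := by
    have := norm_snd_le v; simpa using this
  calc |a * v.1 + b * v.2| ≤ |a| * |v.1| + |b| * |v.2| := by
        rw [← abs_mul, ← abs_mul]; exact abs_add_le _ _
    _ ≤ |a| * ‖v‖ + |b| * ‖v‖ := by
        have := mul_le_mul_of_nonneg_left h1 (abs_nonneg a)
        have := mul_le_mul_of_nonneg_left h2 (abs_nonneg b)
        linarith
    _ = (|a| + |b|) * ‖v‖ := by ring
    _ ≤ c * ‖v‖ := mul_le_mul_of_nonneg_right h (norm_nonneg _)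

theorem norm_TT_le (z : Plane) : ‖TT z‖ ≤ 3 / 8 := by
  refine ContinuousLinearMap.opNorm_le_bound _ (by norm_num) fun v => ?_
  rw [TT_apply, Prod.norm_def]
  exact max_le (comb_le (row1 z) v) (comb_le (row2 z) v)

/-- The displacement. -/
noncomputable def gg (z : Plane) : Plane := (g1 z, g2 z)

theorem hasFDerivAt_gg (z : Plane) : HasFDerivAt gg (TT z) z :=
  (hasFDerivAt_g1 z).prodMk (hasFDerivAt_g2 z)

theorem FF_eq (z : Plane) : FF z = z + gg z := rfl

theorem gg_lip (x y : Plane) : ‖gg x - gg y‖ ≤ 3 / 8 * ‖x - y‖ :=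
  Convex.norm_image_sub_le_of_norm_hasFDerivWithin_le
    (f := gg) (f' := TT) (s := Set.univ) (C := 3 / 8)
    (fun z _ => (hasFDerivAt_gg z).hasFDerivWithinAt) (fun z _ => norm_TT_le z) convex_univ
    (Set.mem_univ y) (Set.mem_univ x)

theorem FF_approx : ApproximatesLinearOn FF
    ((ContinuousLinearEquiv.refl ℝ Plane : Plane ≃L[ℝ] Plane) : Plane →L[ℝ] Plane) Set.univ
    (3 / 8 : NNReal) := by
  intro x _ y _
  have h : FF x - FF y -
      ((ContinuousLinearEquiv.refl ℝ Plane : Plane ≃L[ℝ] Plane) : Plane →L[ℝ] Plane) (x - y)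
      = gg x - gg y := by
    rw [FF_eq, FF_eq]
    simp only [ContinuousLinearEquiv.coe_refl, ContinuousLinearMap.coe_id', id_eq]
    abel
  rw [h]
  simpa using gg_lip x y

/-- The lift as a homeomorphism. -/
noncomputable def Fh : Plane ≃ₜ Plane :=
  FF_approx.toHomeomorph FF (Or.inr (by
    have h1 : ‖((ContinuousLinearEquiv.refl ℝ Plane).symm : Plane →L[ℝ] Plane)‖₊ = 1 := by
      have : ((ContinuousLinearEquiv.refl ℝ Plane).symm : Plane →L[ℝ] Plane)
          = ContinuousLinearMap.id ℝ Plane := rfl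
      rw [this]
      exact_mod_cast ContinuousLinearMap.nnnorm_id (𝕜 := ℝ) (E := Plane)
    rw [h1, inv_one]
    have : (3 / 8 : NNReal) < 1 := by
      rw [div_lt_one (by norm_num)]; norm_num
    exact this))

theorem Fh_coe : (Fh : Plane → Plane) = FF := rfl

/-- The inverse of the lift. -/
noncomputable def GG : Plane → Plane := Fh.symm

theorem GG_FF (z : Plane) : GG (FF z) = z := Fh.symm_apply_apply z
theorem FF_GG (z : Plane) : FF (GG z) = z := Fh.apply_symm_apply z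

/-- The derivative as an equivalence. -/
noncomputable def De (z : Plane) : Plane ≃L[ℝ] Plane :=
  ContinuousLinearEquiv.ofUnit (Units.oneSub (-TT z) (by
    rw [norm_neg]; exact (norm_TT_le z).trans_lt (by norm_num)))

theorem De_coe (z : Plane) : ((De z : Plane ≃L[ℝ] Plane) : Plane →L[ℝ] Plane) = 1 + TT z := by
  ext <;> simp [De, ContinuousLinearEquiv.ofUnit, Units.oneSub]

theorem GG_contDiff : ContDiff ℝ ω GG := by
  refine Homeomorph.contDiff_symm Fh (f₀' := De) (fun a => ?_) FF_contDiff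
  rw [De_coe]
  exact hasFDerivAt_FF a

end Run7.h501.FE
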